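import Pool.Agent.Work.MP_9d0e17_ap.Interface
import Pool.Agent.Work.LV.W2

/-!
# Block WB: Stepanov's count for `f(x)^m = a`, `p = 2m+1`

The quadratic version of `Work/LV/W2.lean` and of the parameters in `Work/LV/W.lean`.
-/

set_option autoImplicit false

namespace Pool.Agent.Work.AP90.helper51

open Finset Polynomial Pool.Agent.Work.AP90
open Pool.Agent.Work.LV (Lop Lop_succ Lop_natDegree derivative_X_pow_mul_p iterate_deriv_term
  natDegree_of_mem)

variable {p : ℕ} [Fact p.Prime]

/-- The evaluation of the `k`-th derivative of the auxiliary polynomial at a point. -/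
theorem eval_deriv_aux {f : (ZMod p)[X]} {m ℓ J : ℕ} (r : Fin 2 → ℕ → (ZMod p)[X])
    {k : ℕ} (hk : k ≤ ℓ) {x a : ZMod p} (hx : f.eval x ^ m = a) :
    (derivative^[k] (∑ j ∈ range J, (∑ i : Fin 2, r i j * f ^ (ℓ + i.val * m)) *
      X ^ (j * p))).eval x =
    f.eval x ^ (ℓ - k) *
      (∑ j ∈ range J, (∑ i : Fin 2, C (a ^ i.val) * Lop f (ℓ + i.val * m) k (r i j)) *
        X ^ j).eval x := by
  rw [iterate_derivative_sum, eval_finsetSum, eval_finsetSum, Finset.mul_sum]
  apply Finset.sum_congr rfl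
  intro j _
  have h1 : (∑ i : Fin 2, r i j * f ^ (ℓ + i.val * m)) * X ^ (j * p) =
      ∑ i : Fin 2, f ^ (ℓ + i.val * m) * r i j * X ^ (j * p) := by
    rw [Finset.sum_mul]
    apply Finset.sum_congr rfl
    intro i _
    ring
  rw [h1, iterate_derivative_sum, eval_finsetSum]
  have h2 : ∀ i : Fin 2, (derivative^[k] (f ^ (ℓ + i.val * m) * r i j * X ^ (j * p))).eval x =
      f.eval x ^ (ℓ - k) * (a ^ i.val * (Lop f (ℓ + i.val * m) k (r i j)).eval x * x ^ j) := by
    intro i
    rw [iterate_deriv_term _ _ _ _ _ (by omega)]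
    have h3 : ℓ + i.val * m - k = (ℓ - k) + i.val * m := by omega
    rw [h3, eval_mul, eval_mul, eval_pow, eval_pow, eval_X, pow_mul, pow_add, ← hx,
      ZMod.pow_card]
    have h4 : (f.eval x) ^ (i.val * m) = (f.eval x ^ m) ^ i.val := by
      rw [mul_comm, pow_mul]
    rw [h4]
    ring
  simp_rw [h2]
  rw [eval_mul, eval_finsetSum, eval_pow, eval_X, Finset.sum_mul, Finset.mul_sum]
  apply Finset.sum_congr rfl
  intro i _
  rw [eval_mul, eval_C]

section count

variable {J ℓ D : ℕ}

/-- Extension of a finite family of polynomials by zero. -/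
noncomputable def extR (r : Fin J → Fin 2 → degreeLT (ZMod p) (D + 1)) :
    Fin 2 → ℕ → (ZMod p)[X] :=
  fun i j => if h : j < J then (r ⟨j, h⟩ i : (ZMod p)[X]) else 0

/-- The polynomial whose vanishing makes the `k`-th derivative vanish at the points with
`f ^ m = a`, as a linear map. -/
noncomputable def SP (f : (ZMod p)[X]) (m ℓ : ℕ) (a : ZMod p) (J D k : ℕ) :
    (Fin J → Fin 2 → degreeLT (ZMod p) (D + 1)) →ₗ[ZMod p] (ZMod p)[X] :=
  ∑ j : Fin J, ∑ i : Fin 2, LinearMap.mulLeft (ZMod p) (C (a ^ i.val) * X ^ j.val) ∘ₗ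
    Lop f (ℓ + i.val * m) k ∘ₗ (degreeLT (ZMod p) (D + 1)).subtype ∘ₗ
      LinearMap.proj i ∘ₗ LinearMap.proj j

theorem SP_apply (f : (ZMod p)[X]) (m : ℕ) (a : ZMod p) (k : ℕ)
    (r : Fin J → Fin 2 → degreeLT (ZMod p) (D + 1)) :
    SP f m ℓ a J D k r = ∑ j ∈ range J,
      (∑ i : Fin 2, C (a ^ i.val) * Lop f (ℓ + i.val * m) k (extR r i j)) * X ^ j := by
  rw [Finset.sum_range, SP, LinearMap.sum_apply]
  apply Finset.sum_congr rfl
  intro j _
  rw [LinearMap.sum_apply, Finset.sum_mul]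
  apply Finset.sum_congr rfl
  intro i _
  have h1 : extR r i j = (r j i : (ZMod p)[X]) := by
    rw [extR, dif_pos j.2]
  rw [h1]
  simp only [LinearMap.comp_apply, LinearMap.mulLeft_apply, LinearMap.proj_apply,
    Submodule.subtype_apply]
  ring

theorem extR_natDegree (r : Fin J → Fin 2 → degreeLT (ZMod p) (D + 1)) (i : Fin 2) (j : ℕ) :
    (extR r i j).natDegree ≤ D := by
  unfold extR
  split_ifs with h
  · exact natDegree_of_mem
  · simp

theorem SP_natDegree {f : (ZMod p)[X]} {d : ℕ} (hd : f.natDegree ≤ d) (m : ℕ) (a : ZMod p) (k : ℕ)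
    (r : Fin J → Fin 2 → degreeLT (ZMod p) (D + 1)) :
    (SP f m ℓ a J D k r).natDegree ≤ D + k * d + (J - 1) := by
  rw [SP_apply]
  apply natDegree_sum_le_of_forall_le
  intro j hj
  rw [Finset.mem_range] at hj
  refine natDegree_mul_le.trans (add_le_add ?_ ?_)
  · apply natDegree_sum_le_of_forall_le
    intro i _
    exact (natDegree_C_mul_le _ _).trans (Lop_natDegree hd _ (extR_natDegree r i j) k)
  · rw [natDegree_X_pow]; omega

/-- Existence of the auxiliary coefficients. -/
theorem exists_coeffs {f : (ZMod p)[X]} {d : ℕ} (hd : f.natDegree ≤ d) (m : ℕ) (a : ZMod p)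
    (hJ : 1 ≤ J) (hcount : ∑ k ∈ range ℓ, (D + k * d + J) < 2 * J * (D + 1)) :
    ∃ r : Fin J → Fin 2 → degreeLT (ZMod p) (D + 1), r ≠ 0 ∧
      ∀ k < ℓ, SP f m ℓ a J D k r = 0 := by
  let Φ : (Fin J → Fin 2 → degreeLT (ZMod p) (D + 1)) →ₗ[ZMod p]
      ((k : Fin ℓ) → (Fin (D + k.val * d + J) → ZMod p)) :=
    LinearMap.pi fun k => LinearMap.pi fun n => lcoeff (ZMod p) n.val ∘ₗ SP f m ℓ a J D k.val
  have hfd : FiniteDimensional (ZMod p) (degreeLT (ZMod p) (D + 1)) :=
    Module.Finite.equiv (degreeLTEquiv (ZMod p) (D + 1)).symm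
  have hdim : Module.finrank (ZMod p) (degreeLT (ZMod p) (D + 1)) = D + 1 := by
    rw [LinearEquiv.finrank_eq (degreeLTEquiv (ZMod p) (D + 1)), Module.finrank_fin_fun]
  have hlt : Module.finrank (ZMod p) ((k : Fin ℓ) → (Fin (D + k.val * d + J) → ZMod p)) <
      Module.finrank (ZMod p) (Fin J → Fin 2 → degreeLT (ZMod p) (D + 1)) := by
    rw [Module.finrank_pi_fintype, Module.finrank_pi_fintype]
    simp only [Module.finrank_pi_fintype, hdim, Finset.sum_const,
      Finset.card_univ, Fintype.card_fin, smul_eq_mul, Module.finrank_self, mul_one]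
    rw [Finset.sum_range] at hcount
    calc ∑ k : Fin ℓ, (D + k.val * d + J) < 2 * J * (D + 1) := hcount
      _ = J * (2 * (D + 1)) := by ring
  have hker := LinearMap.ker_ne_bot_of_finrank_lt (f := Φ) hlt
  obtain ⟨r, hr, hr0⟩ := Submodule.exists_mem_ne_zero_of_ne_bot hker
  refine ⟨r, hr0, fun k hk => ?_⟩
  rw [LinearMap.mem_ker] at hr
  ext n
  rw [coeff_zero]
  by_cases hn : n < D + k * d + J
  · exact congrFun (congrFun hr ⟨k, hk⟩) ⟨n, hn⟩
  · apply coeff_eq_zero_of_natDegree_lt
    have := SP_natDegree (ℓ := ℓ) hd m a k r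
    omega

/-- **Stepanov's bound.** -/
theorem stepanov_count (hWA : Stmt_WA) {f : (ZMod p)[X]} {d m : ℕ} (hd : f.natDegree ≤ d) (hf0 : f.eval 0 ≠ 0)
    {α : ZMod p} (hα : Odd (f.rootMultiplicity α)) (hm : 2 * m + 1 = p)
    (hD : d + 2 * D < p) (hJ : 1 ≤ J) (hℓ : ℓ ≤ p)
    (hcount : ∑ k ∈ range ℓ, (D + k * d + J) < 2 * J * (D + 1)) (a : ZMod p) :
    ℓ * (univ.filter fun x : ZMod p => f.eval x ^ m = a).card ≤
      D + (ℓ + 1 * m) * d + (J - 1) * p := by
  classical
  obtain ⟨r, hr0, hr⟩ := exists_coeffs (ℓ := ℓ) hd m a hJ hcount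
  set R := extR r with hR
  set P : (ZMod p)[X] := ∑ j ∈ range J, (∑ i : Fin 2, R i j * f ^ (ℓ + i.val * m)) *
      X ^ (j * p) with hP
  have hPf : P = f ^ ℓ * ∑ j ∈ range J, (∑ i : Fin 2, R i j * f ^ (i.val * m)) * X ^ (j * p) := by
    rw [hP, Finset.mul_sum]
    apply Finset.sum_congr rfl
    intro j _
    rw [← mul_assoc]
    congr 1
    rw [Finset.mul_sum]
    apply Finset.sum_congr rfl
    intro i _
    rw [pow_add]; ring
  have hf : f ≠ 0 := by rintro rfl; simp at hf0
  have hP0 : P ≠ 0 := by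
    rw [hPf]
    apply mul_ne_zero (pow_ne_zero _ hf)
    intro h0
    have h1 := hWA p f d D m J α hd hf0 hα hm hD R (extR_natDegree r) h0
    apply hr0
    funext j i
    have h2 := h1 j j.2 i
    rw [hR, extR, dif_pos j.2] at h2
    exact Subtype.ext h2
  -- multiplicity at the points
  have hmult : ∀ x ∈ univ.filter (fun x : ZMod p => f.eval x ^ m = a),
      ℓ ≤ P.rootMultiplicity x := by
    intro x hx
    rw [Finset.mem_filter] at hx
    rcases Nat.eq_zero_or_pos ℓ with h0 | hpos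
    · omega
    have h1 : ℓ - 1 < P.rootMultiplicity x := by
      apply lt_rootMultiplicity_of_isRoot_iterate_derivative_of_mem_nonZeroDivisors' hP0
      · intro k hk
        rw [IsRoot, hP, eval_deriv_aux R (by omega) hx.2]
        have h2 := hr k (by omega)
        rw [SP_apply] at h2
        rw [h2, eval_zero, mul_zero]
      · intro k hk hk0
        rw [mem_nonZeroDivisors_iff_ne_zero, Ne, ZMod.natCast_eq_zero_iff]
        intro hdvd
        have := Nat.le_of_dvd (Nat.pos_of_ne_zero hk0) hdvd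
        omega
    omega
  have hdeg : P.natDegree ≤ D + (ℓ + 1 * m) * d + (J - 1) * p := by
    rw [hP]
    apply natDegree_sum_le_of_forall_le
    intro j hj
    rw [Finset.mem_range] at hj
    refine natDegree_mul_le.trans (add_le_add ?_ ?_)
    · apply natDegree_sum_le_of_forall_le
      intro i _
      refine natDegree_mul_le.trans (add_le_add (extR_natDegree r i j) ?_)
      refine natDegree_pow_le.trans ?_
      have hi : i.val ≤ 1 := by omega
      exact Nat.mul_le_mul (Nat.add_le_add_left (Nat.mul_le_mul_right _ hi) _) hd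
    · rw [natDegree_X_pow]
      exact Nat.mul_le_mul_right _ (by omega)
  calc ℓ * (univ.filter fun x : ZMod p => f.eval x ^ m = a).card
      = ∑ x ∈ univ.filter (fun x : ZMod p => f.eval x ^ m = a), ℓ := by
        rw [Finset.sum_const, smul_eq_mul, mul_comm]
    _ ≤ ∑ x ∈ univ.filter (fun x : ZMod p => f.eval x ^ m = a), P.rootMultiplicity x :=
        Finset.sum_le_sum hmult
    _ = ∑ x ∈ univ.filter (fun x : ZMod p => f.eval x ^ m = a), P.roots.count x := by
        apply Finset.sum_congr rfl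
        intro x _
        rw [count_roots]
    _ ≤ ∑ x : ZMod p, P.roots.count x :=
        Finset.sum_le_sum_of_subset (Finset.filter_subset _ _)
    _ = Multiset.card P.roots := Multiset.sum_count_eq_card (fun x _ => Finset.mem_univ x)
    _ ≤ P.natDegree := card_roots' P
    _ ≤ D + (ℓ + 1 * m) * d + (J - 1) * p := hdeg

end count


/-- The counting bound with explicit parameters, `s = Nat.sqrt p`. -/
theorem count_params (hWA : Stmt_WA) {f : (ZMod p)[X]} {d m s t : ℕ} (hd : f.natDegree ≤ d)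
    (hf0 : f.eval 0 ≠ 0) {α : ZMod p} (hα : Odd (f.rootMultiplicity α)) (hm : 2 * m + 1 = p)
    (hs : s * s ≤ p) (ht : t = 2 * d + 3) (hst : 2 * t + d + 1 ≤ s) (a : ZMod p) :
    2 * s * (univ.filter fun x : ZMod p => f.eval x ^ m = a).card ≤
      s * p + (1 + d + t) * p + 2 * s * d := by
  obtain ⟨D, hD1, hD2⟩ : ∃ D, d + 2 * D < p ∧ p ≤ 2 * (D + 1) + d := by
    have h1 : s ≤ s * s := Nat.le_mul_self s
    exact ⟨(p - d - 1) / 2, by omega, by omega⟩
  have h1 : s ≤ s * s := Nat.le_mul_self s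
  have h2s : 2 * s ≤ s * s := Nat.mul_le_mul_right s (by omega)
  have hsum : ∑ k ∈ range (2 * s), (D + k * d + (s + t)) < 2 * (s + t) * (D + 1) := by
    have e1 : ∑ k ∈ range (2 * s), (D + k * d + (s + t)) ≤
        2 * s * (D + (s + t)) + 2 * s * s * d := by
      have e2 : ∑ k ∈ range (2 * s), (D + k * d + (s + t)) =
          2 * s * (D + (s + t)) + (∑ k ∈ range (2 * s), k) * d := by
        rw [Finset.sum_mul, ← smul_eq_mul (2 * s), ← Finset.card_range (2 * s),
          ← Finset.sum_const, Finset.card_range, ← Finset.sum_add_distrib]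
        apply Finset.sum_congr rfl
        intro k _
        ring
      have e3 : (∑ k ∈ range (2 * s), k) * 2 ≤ 2 * s * (2 * s) := by
        rw [Finset.sum_range_id_mul_two]
        exact Nat.mul_le_mul_left _ (Nat.sub_le _ _)
      have e4 : ∑ k ∈ range (2 * s), k ≤ 2 * s * s := by
        have e5 : 2 * s * (2 * s) = 2 * s * s * 2 := by ring
        omega
      rw [e2]
      have := Nat.mul_le_mul_right d e4
      omega
    have f1 : s * s ≤ 2 * (D + 1) + d := by omega
    have f2 : t * (s * s) ≤ t * (2 * (D + 1) + d) := Nat.mul_le_mul_left _ f1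
    have f3 : 2 * s * (s + t) + 2 * d * (s * s) + t * d < 2 * s + t * (s * s) := by
      have g1 : s * (2 * t + d + 1) ≤ s * s := Nat.mul_le_mul_left s hst
      have g2 : t * d ≤ s * d := Nat.mul_le_mul_right d (by omega)
      have g3 : t * (s * s) = 2 * d * (s * s) + 3 * (s * s) := by rw [ht]; ring
      have g4 : 2 * s * (s + t) = 2 * (s * s) + s * (2 * t) := by ring
      have g5 : s * (2 * t + d + 1) = s * (2 * t) + s * d + s := by ring
      omega
    have f4 : 2 * s * (D + (s + t)) + 2 * s * s * d =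
        2 * s * D + 2 * s * (s + t) + 2 * d * (s * s) := by ring
    have f5 : 2 * (s + t) * (D + 1) = 2 * s * D + 2 * s + t * (2 * (D + 1)) := by ring
    have f6 : t * (2 * (D + 1) + d) = t * (2 * (D + 1)) + t * d := by ring
    omega
  have h2 := stepanov_count hWA (ℓ := 2 * s) (J := s + t) hd hf0 hα hm hD1 (by omega) (by omega)
    hsum a
  refine h2.trans ?_
  have h4 : D ≤ p := by omega
  have h5 : 1 * m ≤ p := by omega
  have h6 : (s + t - 1) * p ≤ (s + t) * p := Nat.mul_le_mul_right _ (by omega)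
  have h7 : 1 * m * d ≤ p * d := Nat.mul_le_mul_right _ h5
  have h8 : (2 * s + 1 * m) * d = 2 * s * d + 1 * m * d := by ring
  have h9 : (s + t) * p = s * p + t * p := by ring
  have h10 : (1 + d + t) * p = p + p * d + t * p := by ring
  omega

/-- Real form of the counting bound. -/
theorem count_real (hWA : Stmt_WA) {f : (ZMod p)[X]} {d m : ℕ} (hd : f.natDegree ≤ d)
    (hf0 : f.eval 0 ≠ 0) {α : ZMod p} (hα : Odd (f.rootMultiplicity α)) (hm : 2 * m + 1 = p)
    (hp : 5 * d + 7 ≤ Nat.sqrt p) (a : ZMod p) :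
    ((univ.filter fun x : ZMod p => f.eval x ^ m = a).card : ℝ) ≤
      p / 2 + (4 * d + 4) * Real.sqrt p := by
  set s := Nat.sqrt p with hs
  have h1 := count_params hWA (t := 2 * d + 3) hd hf0 hα hm (Nat.sqrt_le p) rfl
    (by omega) a
  rw [← hs] at h1
  set N := (univ.filter fun x : ZMod p => f.eval x ^ m = a).card with hN
  have h2 : (2 * s * N : ℝ) ≤ s * p + (3 * d + 4) * p + 2 * s * d := by
    have : ((2 * s * N : ℕ) : ℝ) ≤ ((s * p + (1 + d + (2 * d + 3)) * p + 2 * s * d : ℕ) : ℝ) := by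
      exact_mod_cast h1
    push_cast at this
    nlinarith
  have hs0 : (0 : ℝ) < s := by
    have : 0 < s := by omega
    exact_mod_cast this
  have hsq : Real.sqrt p ≤ 2 * s := by
    rw [Real.sqrt_le_left (by positivity)]
    have h3 := Nat.lt_succ_sqrt p
    rw [← hs] at h3
    have h4 : p ≤ (2 * s) * (2 * s) := by
      have : s + 1 ≤ 2 * s := by omega
      have := Nat.mul_le_mul this this
      rw [Nat.succ_eq_add_one] at h3
      omega
    have h5 : (p : ℝ) ≤ ((2 * s) * (2 * s) : ℕ) := by exact_mod_cast h4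
    push_cast at h5
    nlinarith
  have hp1 : (1 : ℝ) ≤ Real.sqrt p := by
    rw [Real.one_le_sqrt]
    exact_mod_cast (Fact.out : p.Prime).one_lt.le
  have hpp : (p : ℝ) = Real.sqrt p * Real.sqrt p := (Real.mul_self_sqrt (by positivity)).symm
  have h6 : (p : ℝ) ≤ Real.sqrt p * (2 * s) := by
    conv_lhs => rw [hpp]
    exact mul_le_mul_of_nonneg_left hsq (Real.sqrt_nonneg _)
  have h7 : (2 * s : ℝ) * N ≤ (2 * s) * (p / 2 + (4 * d + 4) * Real.sqrt p) := by
    have hd0 : (0 : ℝ) ≤ d := Nat.cast_nonneg d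
    have h8 : (3 * d + 4 : ℝ) * p ≤ (3 * d + 4) * (Real.sqrt p * (2 * s)) :=
      mul_le_mul_of_nonneg_left h6 (by positivity)
    have h9 : (2 * s * d : ℝ) ≤ 2 * s * d * Real.sqrt p := by
      have : (0 : ℝ) ≤ 2 * s * d := by positivity
      nlinarith
    have h10 : (0 : ℝ) ≤ s * Real.sqrt p * d := by positivity
    have h11 : (0 : ℝ) ≤ s * Real.sqrt p := by positivity
    nlinarith
  exact le_of_mul_le_mul_left h7 (by positivity)

/-- **Block WB.** -/
theorem stmt_WB (hWA : Stmt_WA) : Stmt_WB := by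
  intro d
  refine ⟨9 * d + 11, by positivity, ?_⟩
  intro p _ f m α hd hf0 hα hm a
  have hd0 : (0 : ℝ) ≤ d := Nat.cast_nonneg d
  have hsq0 : (0 : ℝ) ≤ Real.sqrt p := Real.sqrt_nonneg _
  by_cases hp : 5 * d + 7 ≤ Nat.sqrt p
  · refine (count_real hWA hd hf0 hα hm hp a).trans ?_
    have : (0 : ℝ) ≤ d * Real.sqrt p := by positivity
    nlinarith
  · have h4 : Real.sqrt p ≤ 5 * d + 7 := by
      rw [Real.sqrt_le_left (by positivity)]
      have h5 := Nat.lt_succ_sqrt p
      have h6 : Nat.sqrt p + 1 ≤ 5 * d + 7 := by omega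
      have h7 := Nat.mul_le_mul h6 h6
      rw [Nat.succ_eq_add_one] at h5
      have h8 : p ≤ (5 * d + 7) * (5 * d + 7) := by omega
      have h9 : (p : ℝ) ≤ (((5 * d + 7) * (5 * d + 7) : ℕ) : ℝ) := by exact_mod_cast h8
      push_cast at h9
      nlinarith
    have h5 : ((univ.filter fun x : ZMod p => f.eval x ^ m = a).card : ℝ) ≤ p := by
      have : (univ.filter fun x : ZMod p => f.eval x ^ m = a).card ≤ p := by
        refine (Finset.card_filter_le _ _).trans ?_
        rw [Finset.card_univ, ZMod.card]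
      exact_mod_cast this
    have h6 : (p : ℝ) = Real.sqrt p * Real.sqrt p := (Real.mul_self_sqrt (by positivity)).symm
    have h7 : Real.sqrt p * Real.sqrt p ≤ (5 * d + 7) * Real.sqrt p :=
      mul_le_mul_of_nonneg_right h4 hsq0
    have h8 : (0 : ℝ) ≤ d * Real.sqrt p := by positivity
    have h9 : (0 : ℝ) ≤ (p : ℝ) / 2 := by positivity
    nlinarith

end Pool.Agent.Work.AP90.helper51
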